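import Mathlib
import Pool.Agent.H16.CovEnt3

set_option autoImplicit false

namespace Pool.Agent.Results.MP_87c4bd_co.No

open Pool.Agent.H16.CovEnt MeasureTheory

theorem result : ∀ (Ω : Type) [MeasurableSpace Ω] (π : Measure Ω) [IsProbabilityMeasure π]
    (I : Set (Set Ω)), (∀ J ∈ I, MeasurableSet J) → ∀ lam : ℝ, 0 < lam → lam < 1 →
    fullH I π ≤ cntH I π ∧ cntH I π ≤ lowerH I π lam ∧ ¬ upperH I π lam < fullH I π := by
  intro Ω _ π _ I hI lam _ h1
  refine ⟨full_le_cnt hI π, cnt_le_lower hI π lam h1, not_lt.mpr ?_⟩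
  exact (full_le_cnt hI π).trans ((cnt_le_lower hI π lam h1).trans Filter.liminf_le_limsup)

end Pool.Agent.Results.MP_87c4bd_co.No
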